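import Pool.Agent.helper37.NG.Spec
import Pool.Agent.helper55.NK.Base

set_option autoImplicit false

namespace Pool.Agent.helper37.NG

open Finset Pool.Agent.NK Pool.Agent.helper37.NF

theorem MO3_mono (N r : ℕ) (d : ℕ) (h : 2 * (r + d) ≤ N) : N.choose r ≤ N.choose (r + d) := by
  induction d with
  | zero => exact le_rfl
  | succ d ih =>
    have h1 := ih (by omega)
    have h2 : N.choose (r + d) ≤ N.choose (r + d + 1) :=
      Nat.choose_le_succ_of_lt_half_left (by omega)
    exact h1.trans h2

theorem MO3_le (N : ℕ) : ∀ r, 1 ≤ r → r + 1 ≤ N → N ≤ N.choose r := by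
  induction N with
  | zero => intro r h1 h2; omega
  | succ N ih =>
    intro r h1 h2
    obtain ⟨r', rfl⟩ : ∃ r', r = r' + 1 := ⟨r - 1, by omega⟩
    rw [Nat.choose_succ_succ]
    by_cases h : r' + 1 = N
    · subst h
      rw [Nat.choose_self, Nat.choose_succ_self_right]
    · have h3 := ih (r' + 1) (by omega) (by omega)
      have h4 : 0 < N.choose r' := Nat.choose_pos (by omega)
      have h5 : N.choose (r' + 1) = N.choose (Nat.succ r') := rfl
      omega

theorem MO3 : MO3_stmt := by
  intro n s t hs hst hn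
  unfold MV
  obtain ⟨q, hqd⟩ : ∃ q, q = (n + 1) / s := ⟨_, rfl⟩
  rw [← hqd]
  have h1 : (n - q).choose (s - 1) ≤ (n - q).choose (t - 1) := by
    rcases Nat.lt_or_ge 2 s with h3 | h2
    · have hq : (n + 1) / s ≤ (n + 1) / 3 := Nat.div_le_div_left h3 (by norm_num)
      rw [← hqd] at hq
      obtain ⟨d, hd⟩ : ∃ d, t - 1 = (s - 1) + d := ⟨t - s, by omega⟩
      rw [hd]
      apply MO3_mono
      rw [← hd]
      omega
    · have h2' : s = 2 := by omega
      subst h2'
      have e : (n - q).choose (2 - 1) = n - q := Nat.choose_one_right _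
      rw [e]
      exact MO3_le _ _ (by omega) (by omega)
  calc q * (n - q).choose (s - 1) ≤ q * (n - q).choose (t - 1) := Nat.mul_le_mul_left _ h1
    _ ≤ _ := Pool.Agent.NK.Base.block_le n t (by omega) (by omega) q

end Pool.Agent.helper37.NG
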